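import Pool.Agent.L5helper13.KM.Defs
import Pool.Agent.L5helper99.KM.Special

/-! KM3: `special'` from `special` -/

set_option autoImplicit false

namespace Pool.Agent.L5helper13.KM

open MvPolynomial Finset

/-- the statement of KM2 -/
def St_special : Prop := ∀ (a b : Ex → ℂ), (Function.support a).Finite →
    (Function.support b).Finite → Kel a b → a (Finsupp.single 0 1) = 1 →
    (∀ e, a e ≠ 0 → e = Finsupp.single 0 1 ∨ (1 ≤ e 0 ∧ 1 ≤ e 1)) →
    (∀ e, b e ≠ 0 → 1 ≤ e 1) →
    ∀ e, a e ≠ 0 → e = Finsupp.single 0 1

private lemma Phi_comb (a b : Ex → ℂ) (p q r s : ℂ) (m : Ex) :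
    Phi (fun e => p * a e + q * b e) (fun e => r * a e + s * b e) m =
      (p * s - q * r) * Phi a b m := by
  have hswap : ∀ u v : Ex → ℂ, Phi u v m = - Phi v u m := by
    intro u v
    unfold Phi
    rw [← Finset.sum_neg_distrib]
    refine Finset.sum_nbij' Prod.swap Prod.swap (fun x hx => ?_) (fun x hx => ?_)
      (fun x _ => Prod.swap_swap x) (fun x _ => Prod.swap_swap x) (fun x _ => ?_)
    · rw [HasAntidiagonal.mem_antidiagonal] at hx ⊢
      rw [Prod.fst_swap, Prod.snd_swap, add_comm]
      exact hx
    · rw [HasAntidiagonal.mem_antidiagonal] at hx ⊢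
      rw [Prod.fst_swap, Prod.snd_swap, add_comm]
      exact hx
    · rw [Prod.fst_swap, Prod.snd_swap]
      ring
  have hself : ∀ u : Ex → ℂ, Phi u u m = 0 := by
    intro u
    have h1 := hswap u u
    have h2 : (2 : ℂ) * Phi u u m = 0 := by linear_combination h1
    exact (mul_eq_zero.1 h2).resolve_left two_ne_zero
  have hexp : Phi (fun e => p * a e + q * b e) (fun e => r * a e + s * b e) m =
      p * r * Phi a a m + p * s * Phi a b m + q * r * Phi b a m + q * s * Phi b b m := by
    unfold Phi
    simp only [Finset.mul_sum, ← Finset.sum_add_distrib]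
    refine Finset.sum_congr rfl fun x _ => ?_
    ring
  rw [hexp, hself, hself, hswap b a]
  ring

private lemma Phi_single (b : Ex → ℂ) (c : ℂ) (a : Ex → ℂ)
    (ha : ∀ e, e ≠ Finsupp.single 0 1 → a e = 0) (hc : a (Finsupp.single 0 1) = c) (e : Ex) :
    Phi a b (Finsupp.single 0 1 + e) = (e 1 : ℂ) * (c * b e) := by
  unfold Phi
  rw [Finset.sum_eq_single (Finsupp.single 0 1, e)]
  · rw [hc]
    simp
  · rintro ⟨x, y⟩ hxy hne
    rw [HasAntidiagonal.mem_antidiagonal] at hxy
    by_cases hx : x = Finsupp.single 0 1
    · exfalso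
      apply hne
      subst hx
      have hy : y = e := by simpa using hxy
      rw [hy]
    · rw [ha x hx]
      ring
  · intro h
    exfalso
    apply h
    rw [HasAntidiagonal.mem_antidiagonal]

private lemma Phi_one (a b : Ex → ℂ) (ha0 : a 0 = 0) (hb0 : b 0 = 0) :
    Phi a b (Finsupp.single 0 1 + Finsupp.single 1 1) =
      a (Finsupp.single 0 1) * b (Finsupp.single 1 1) -
        a (Finsupp.single 1 1) * b (Finsupp.single 0 1) := by
  have hne : (Finsupp.single 0 1 : Ex) ≠ Finsupp.single 1 1 := by
    intro h
    have := DFunLike.congr_fun h 0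
    simp at this
  have hsub : ({((Finsupp.single 0 1 : Ex), (Finsupp.single 1 1 : Ex)),
      ((Finsupp.single 1 1 : Ex), (Finsupp.single 0 1 : Ex))} : Finset (Ex × Ex)) ⊆
      antidiagonal (Finsupp.single 0 1 + Finsupp.single 1 1) := by
    intro x hx
    rw [mem_insert, mem_singleton] at hx
    rw [HasAntidiagonal.mem_antidiagonal]
    rcases hx with rfl | rfl
    · rfl
    · exact add_comm _ _
  unfold Phi
  rw [← Finset.sum_subset hsub]
  · rw [Finset.sum_pair]
    · simp
      ring
    · intro h
      exact hne (Prod.ext_iff.1 h).1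
  · rintro ⟨x, y⟩ hxy hnot
    rw [HasAntidiagonal.mem_antidiagonal] at hxy
    have h0 : x 0 + y 0 = 1 := by
      have := DFunLike.congr_fun hxy 0
      simpa using this
    have h1 : x 1 + y 1 = 1 := by
      have := DFunLike.congr_fun hxy 1
      simpa using this
    simp only [mem_insert, mem_singleton, not_or, Prod.mk.injEq, not_and] at hnot
    by_cases hx0 : x 0 = 0
    · by_cases hx1 : x 1 = 0
      · have : x = 0 := by
          ext i
          fin_cases i
          · exact hx0
          · exact hx1
        rw [this, ha0]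
        ring
      · exfalso
        apply hnot.2
        · ext i
          fin_cases i
          · show x 0 = _
            rw [hx0]
            simp
          · show x 1 = _
            simp
            omega
        · ext i
          fin_cases i
          · show y 0 = _
            simp
            omega
          · show y 1 = _
            simp
            omega
    · by_cases hx1 : x 1 = 0
      · exfalso
        apply hnot.1
        · ext i
          fin_cases i
          · show x 0 = _
            simp
            omega
          · show x 1 = _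
            rw [hx1]
            simp
        · ext i
          fin_cases i
          · show y 0 = _
            simp
            omega
          · show y 1 = _
            simp
            omega
      · have : y = 0 := by
          ext i
          fin_cases i
          · show y 0 = 0
            omega
          · show y 1 = 0
            omega
        rw [this, hb0]
        ring

theorem special'_of (special : St_special) (a b : Ex → ℂ) (ha : (Function.support a).Finite)
    (hb : (Function.support b).Finite) (h : Kel a b)
    (hap : ∀ e : Ex, (e 0 = 0 ∨ e 1 = 0) → e ≠ Finsupp.single 0 1 → e ≠ Finsupp.single 1 1 → a e = 0)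
    (hbp : ∀ e : Ex, (e 0 = 0 ∨ e 1 = 0) → e ≠ Finsupp.single 0 1 → e ≠ Finsupp.single 1 1 → b e = 0)
    (e : Ex) (h0 : 1 ≤ e 0) (h1 : 1 ≤ e 1) : a e = 0 ∧ b e = 0 := by
  have hz0 : (0 : Ex) ≠ Finsupp.single 0 1 := by
    intro h
    have := DFunLike.congr_fun h 0
    simp at this
  have hz1 : (0 : Ex) ≠ Finsupp.single 1 1 := by
    intro h
    have := DFunLike.congr_fun h 1
    simp at this
  have ha0 : a 0 = 0 := hap 0 (Or.inl rfl) hz0 hz1
  have hb0 : b 0 = 0 := hbp 0 (Or.inl rfl) hz0 hz1
  have hdet : a (Finsupp.single 0 1) * b (Finsupp.single 1 1) -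
      a (Finsupp.single 1 1) * b (Finsupp.single 0 1) = 1 := by
    rw [← Phi_one a b ha0 hb0, h, if_pos rfl]
  set α := a (Finsupp.single 0 1) with hα
  set β := a (Finsupp.single 1 1) with hβ
  set γ := b (Finsupp.single 0 1) with hγ
  set δ := b (Finsupp.single 1 1) with hδ
  set P : Ex → ℂ := fun e => δ * a e + (-β) * b e with hP
  set Q : Ex → ℂ := fun e => (-γ) * a e + α * b e with hQ
  have hPsupp : (Function.support P).Finite := by
    refine (ha.union hb).subset fun x hx => ?_
    by_contra hcon
    simp only [Set.mem_union, Function.mem_support, not_or, not_not] at hcon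
    apply hx
    show δ * a x + (-β) * b x = 0
    rw [hcon.1, hcon.2]
    ring
  have hQsupp : (Function.support Q).Finite := by
    refine (ha.union hb).subset fun x hx => ?_
    by_contra hcon
    simp only [Set.mem_union, Function.mem_support, not_or, not_not] at hcon
    apply hx
    show (-γ) * a x + α * b x = 0
    rw [hcon.1, hcon.2]
    ring
  have hKel : Kel P Q := by
    intro m
    rw [hP, hQ, Phi_comb, h m]
    have : δ * α - -β * -γ = 1 := by linear_combination hdet
    rw [this, one_mul]
  have hP1 : P (Finsupp.single 0 1) = 1 := by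
    show δ * α + (-β) * γ = 1
    linear_combination hdet
  have hP2 : P (Finsupp.single 1 1) = 0 := by
    show δ * β + (-β) * δ = 0
    ring
  have hQ1 : Q (Finsupp.single 0 1) = 0 := by
    show (-γ) * α + α * γ = 0
    ring
  have hPm : ∀ e, P e ≠ 0 → e = Finsupp.single 0 1 ∨ (1 ≤ e 0 ∧ 1 ≤ e 1) := by
    intro e he
    by_contra hcon
    rw [not_or] at hcon
    have hax : e 0 = 0 ∨ e 1 = 0 := by
      by_contra h'
      rw [not_or] at h'
      exact hcon.2 ⟨Nat.one_le_iff_ne_zero.2 h'.1, Nat.one_le_iff_ne_zero.2 h'.2⟩
    by_cases h' : e = Finsupp.single 1 1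
    · exact he (h' ▸ hP2)
    · apply he
      show δ * a e + (-β) * b e = 0
      rw [hap e hax hcon.1 h', hbp e hax hcon.1 h']
      ring
  have hQm : ∀ e, Q e ≠ 0 → 1 ≤ e 1 := by
    intro e he
    by_contra hcon
    have he1 : e 1 = 0 := by omega
    by_cases h' : e = Finsupp.single 0 1
    · exact he (h' ▸ hQ1)
    · have h'' : e ≠ Finsupp.single 1 1 := by
        intro h3
        rw [h3] at he1
        simp at he1
      apply he
      show (-γ) * a e + α * b e = 0
      rw [hap e (Or.inr he1) h' h'', hbp e (Or.inr he1) h' h'']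
      ring
  have hsp := special P Q hPsupp hQsupp hKel hP1 hPm hQm
  have hPz : ∀ e, e ≠ Finsupp.single 0 1 → P e = 0 := by
    intro e he
    by_contra hcon
    exact he (hsp e hcon)
  have hene : e ≠ Finsupp.single 0 1 := by
    intro h'
    rw [h'] at h1
    simp at h1
  have hPe : P e = 0 := hPz e hene
  have hQe : Q e = 0 := by
    have h2 := hKel (Finsupp.single 0 1 + e)
    rw [Phi_single Q 1 P hPz hP1 e, if_neg, one_mul] at h2
    · rcases mul_eq_zero.1 h2 with h3 | h3
      · exfalso
        have : e 1 = 0 := by exact_mod_cast h3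
        omega
      · exact h3
    · intro h3
      have h4 : e = Finsupp.single 1 1 := by simpa using h3
      rw [h4] at h0
      simp at h0
  have ea : a e = α * P e + β * Q e := by
    show a e = α * (δ * a e + (-β) * b e) + β * ((-γ) * a e + α * b e)
    linear_combination (-(a e)) * hdet
  have eb : b e = γ * P e + δ * Q e := by
    show b e = γ * (δ * a e + (-β) * b e) + δ * ((-γ) * a e + α * b e)
    linear_combination (-(b e)) * hdet
  rw [ea, eb, hPe, hQe]
  constructor <;> ring

theorem special' (a b : Ex → ℂ) (ha : (Function.support a).Finite)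
    (hb : (Function.support b).Finite) (h : Kel a b)
    (hap : ∀ e : Ex, (e 0 = 0 ∨ e 1 = 0) → e ≠ Finsupp.single 0 1 → e ≠ Finsupp.single 1 1 → a e = 0)
    (hbp : ∀ e : Ex, (e 0 = 0 ∨ e 1 = 0) → e ≠ Finsupp.single 0 1 → e ≠ Finsupp.single 1 1 → b e = 0)
    (e : Ex) (h0 : 1 ≤ e 0) (h1 : 1 ≤ e 1) : a e = 0 ∧ b e = 0 :=
  special'_of (fun a b ha hb h ha1 hap hbp => special a b ha hb h ha1 hap hbp)
    a b ha hb h hap hbp e h0 h1

end Pool.Agent.L5helper13.KM
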