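import Pool.Agent.L5helper31.TG.Defs

/-!
# TG10: the strict numerical inequalities
-/

set_option autoImplicit false

namespace Pool.Agent.L5helper31.TG

namespace BdLt

/-- `(1 + 1/k)^k` is strictly increasing, with cleared denominators. -/
theorem num_step {k l : ℕ} (hk : 0 < k) (hkl : k < l) :
    ((k : ℝ) + 1) ^ k * (l : ℝ) ^ l < (k : ℝ) ^ k * ((l : ℝ) + 1) ^ l := by
  have hk' : (0 : ℝ) < k := by exact_mod_cast hk
  have hl' : (0 : ℝ) < l := by exact_mod_cast hk.trans hkl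
  have hkl' : (k : ℝ) < l := by exact_mod_cast hkl
  have h1 := one_add_mul_self_lt_rpow_one_add (s := 1 / (l : ℝ))
    (by have : (0 : ℝ) < 1 / (l : ℝ) := by positivity
        linarith) (by positivity) (p := (l : ℝ) / k) (by rwa [one_lt_div hk'])
  have h2 : 1 + (l : ℝ) / k * (1 / (l : ℝ)) = ((k : ℝ) + 1) / k := by field_simp
  rw [h2] at h1
  have h3 := pow_lt_pow_left₀ h1 (by positivity) hk.ne'
  have h4 : ((1 + 1 / (l : ℝ)) ^ ((l : ℝ) / k)) ^ k = (1 + 1 / (l : ℝ)) ^ l := by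
    rw [← Real.rpow_natCast, ← Real.rpow_mul (by positivity), div_mul_cancel₀ _ hk'.ne',
      Real.rpow_natCast]
  have h5 : 1 + 1 / (l : ℝ) = ((l : ℝ) + 1) / l := by field_simp
  rw [h4, h5, div_pow, div_pow, div_lt_div_iff₀ (by positivity) (by positivity)] at h3
  linarith

theorem num_swap {m z : ℕ} (h : m < z) :
    ((m + z + 1).factorial : ℝ) * bd (m + 1) z < ((m + z + 1).factorial : ℝ) * bd m (z + 1) := by
  have hf : (0 : ℝ) < ((m + z + 1).factorial : ℝ) := by exact_mod_cast Nat.factorial_pos _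
  apply mul_lt_mul_of_pos_left _ hf
  have h1 := num_step (k := m + 1) (l := z + 1) (Nat.succ_pos _) (by omega)
  unfold bd
  push_cast at h1 ⊢
  rw [Nat.factorial_succ m, Nat.factorial_succ z]
  push_cast
  have hm : (0 : ℝ) < (m.factorial : ℝ) := by exact_mod_cast Nat.factorial_pos _
  have hz : (0 : ℝ) < (z.factorial : ℝ) := by exact_mod_cast Nat.factorial_pos _
  have hm1 : (0 : ℝ) < (m : ℝ) + 1 := by positivity
  have hz1 : (0 : ℝ) < (z : ℝ) + 1 := by positivity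
  rw [div_mul_div_comm, div_mul_div_comm, div_lt_div_iff₀ (by positivity) (by positivity)]
  have e1 : ((m : ℝ) + 1 + 1) ^ (m + 1) * ((z : ℝ) + 1) ^ z *
      ((m.factorial : ℝ) * (((z : ℝ) + 1) * (z.factorial : ℝ))) =
      (((m : ℝ) + 1 + 1) ^ (m + 1) * ((z : ℝ) + 1) ^ (z + 1)) *
        ((m.factorial : ℝ) * (z.factorial : ℝ)) := by
    rw [pow_succ ((z : ℝ) + 1) z]; ring
  have e2 : ((m : ℝ) + 1) ^ m * ((z : ℝ) + 1 + 1) ^ (z + 1) *
      (((m : ℝ) + 1) * (m.factorial : ℝ) * (z.factorial : ℝ)) =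
      (((m : ℝ) + 1) ^ (m + 1) * ((z : ℝ) + 1 + 1) ^ (z + 1)) *
        ((m.factorial : ℝ) * (z.factorial : ℝ)) := by
    rw [pow_succ ((m : ℝ) + 1) m]; ring
  rw [e1, e2]
  exact mul_lt_mul_of_pos_right h1 (mul_pos hm hz)

theorem num_one (z : ℕ) : ((1 + z).factorial : ℝ) * bd 1 z = 2 * ((1 + z : ℕ) : ℝ) ^ (1 + z) := by
  unfold bd
  rw [Nat.add_comm 1 z, Nat.factorial_succ]
  have hz : (0 : ℝ) < (z.factorial : ℝ) := by exact_mod_cast Nat.factorial_pos _
  push_cast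
  rw [Nat.factorial_one]
  push_cast
  field_simp
  ring

theorem num_le : ∀ m : ℕ, ∀ z : ℕ, m + 1 ≤ z →
    ((m + 1 + z).factorial : ℝ) * bd (m + 1) z ≤ 2 * ((m + 1 + z : ℕ) : ℝ) ^ (m + 1 + z) := by
  intro m
  induction m with
  | zero =>
    intro z _
    have := num_one z
    simpa using this.le
  | succ m ih =>
    intro z hz
    have h1 := num_swap (m := m + 1) (z := z) (by omega)
    have h2 := ih (z + 1) (by omega)
    have e : m + 1 + 1 + z = m + 1 + z + 1 := by omega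
    have e' : m + 1 + (z + 1) = m + 1 + z + 1 := by omega
    rw [e'] at h2
    rw [e]
    exact h1.le.trans h2

theorem bd_comm (m z : ℕ) : bd m z = bd z m := by
  unfold bd; ring

theorem num_lt {m z : ℕ} (hm : 2 ≤ m) (hz : 2 ≤ z) :
    ((m + z).factorial : ℝ) * bd m z < 2 * ((m + z : ℕ) : ℝ) ^ (m + z) := by
  have key : ∀ m z : ℕ, 2 ≤ m → m ≤ z →
      ((m + z).factorial : ℝ) * bd m z < 2 * ((m + z : ℕ) : ℝ) ^ (m + z) := by
    intro m z hm hmz
    obtain ⟨k, rfl⟩ : ∃ k, m = k + 2 := ⟨m - 2, by omega⟩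
    have h1 := num_swap (m := k + 1) (z := z) (by omega)
    have h2 := num_le k (z + 1) (by omega)
    have e : k + 2 + z = k + 1 + z + 1 := by omega
    have e' : k + 1 + (z + 1) = k + 1 + z + 1 := by omega
    rw [e'] at h2
    rw [e]
    exact h1.trans_le h2
  rcases le_total m z with h | h
  · exact key m z hm h
  · rw [bd_comm, Nat.add_comm m z]
    exact key z m hz h

end BdLt

/-- TG10. Strict inequalities. -/
theorem bd_lt {n m : ℕ} (h1 : 2 ≤ m) (h2 : m + 2 ≤ n) :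
    (n.factorial : ℝ) * bd m (n - m) < 2 * (n : ℝ) ^ n := by
  obtain ⟨z, rfl⟩ : ∃ z, n = m + z := ⟨n - m, by omega⟩
  rw [Nat.add_sub_cancel_left]
  exact BdLt.num_lt h1 (by omega)

theorem bd_zero_lt {n : ℕ} (h : 1 ≤ n) : (n.factorial : ℝ) * bd 0 n < 4 * (n : ℝ) ^ n := by
  have hn : (0 : ℝ) < n := by exact_mod_cast h
  have hf : (0 : ℝ) < (n.factorial : ℝ) := by exact_mod_cast Nat.factorial_pos _
  have e : (n.factorial : ℝ) * bd 0 n = ((n : ℝ) + 1) ^ n := by
    unfold bd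
    rw [Nat.factorial_zero]
    push_cast
    field_simp
  rw [e]
  have h1 : ((n : ℝ) + 1) ^ n = (n : ℝ) ^ n * (1 / (n : ℝ) + 1) ^ n := by
    rw [← mul_pow]; congr 1; field_simp; ring
  have h2 : (1 / (n : ℝ) + 1) ^ n ≤ Real.exp 1 := by
    calc (1 / (n : ℝ) + 1) ^ n ≤ (Real.exp (1 / n)) ^ n :=
          pow_le_pow_left₀ (by positivity) (Real.add_one_le_exp _) n
      _ = Real.exp 1 := by
          rw [← Real.exp_nat_mul]; congr 1; field_simp
  have h3 : Real.exp 1 < 4 := lt_trans Real.exp_one_lt_d9 (by norm_num)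
  rw [h1]
  have h4 : (0 : ℝ) < (n : ℝ) ^ n := by positivity
  nlinarith

end Pool.Agent.L5helper31.TG
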