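import Pool.Agent.L5helper32.GP.D.Defs

/-!
# D7b: measurability of the events along the orbit
-/

set_option autoImplicit false

open Finset MeasureTheory ProbabilityTheory Filter Topology

namespace Pool.Agent.L5helper32.GP

open Pool.Agent.L5helper32.GR (Root w pr sg Dep lev q)

namespace OrbMeas

theorem orb_zero_eq_iff {p : ℕ} (hp : 1 ≤ p) {m : ℕ} (hm : 2 ≤ m) (f : ℕ × ℕ × ℕ → ℕ) (z : ℕ) :
    orb p (cur f) m 0 = z ↔ f ∈ FZ p m z := by
  obtain ⟨y, -, hy⟩ := exists_FZ hp hm f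
  have h1 : orb p (cur f) m 0 = y := by
    unfold orb
    have hy' : y ∈ {z | m < z ∧ dseq p (cur f) z = 0} := ⟨hy.1, hy.2.1⟩
    apply le_antisymm (Nat.sInf_le hy')
    by_contra hlt
    push Not at hlt
    have hmem := Nat.sInf_mem ⟨y, hy'⟩
    exact hy.2.2 _ hmem.1 hlt hmem.2
  constructor
  · intro h; rw [← h, h1]; exact hy
  · intro h; rw [h1]; exact FZ_unique hy h

theorem orb_pos {p : ℕ} (hp : 1 ≤ p) {m : ℕ} (hm : 2 ≤ m) (f : ℕ × ℕ × ℕ → ℕ) (j : ℕ) :
    1 ≤ orb p (cur f) m j := by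
  cases j with
  | zero =>
    have h := (orb_zero_eq_iff hp hm f _).1 rfl
    have := h.1
    omega
  | succ j =>
    have : orb p (cur f) m (j + 1) = nextZero p (cur f) (orb p (cur f) m j) := rfl
    rw [this]
    have := lt_nextZero p (cur f) (orb p (cur f) m j)
    omega

theorem meas_B {p : ℕ} (hp : 1 ≤ p) {m : ℕ} (hm : 2 ≤ m) (j : ℕ) : ∀ z : ℕ,
    MeasurableSet {f : ℕ × ℕ × ℕ → ℕ |
      (∀ i < j, GoodRun p (cur f) (orb p (cur f) m i)) ∧ orb p (cur f) m j = z} := by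
  induction j with
  | zero =>
    intro z
    have : {f : ℕ × ℕ × ℕ → ℕ | (∀ i < 0, GoodRun p (cur f) (orb p (cur f) m i)) ∧
        orb p (cur f) m 0 = z} = FZ p m z := by
      ext f
      simp only [Set.mem_setOf_eq, not_lt_zero', IsEmpty.forall_iff, implies_true, true_and]
      exact orb_zero_eq_iff hp hm f z
    rw [this]
    exact dep_measurable (dep_FZ hp m z)
  | succ j ih =>
    intro z
    have : {f : ℕ × ℕ × ℕ → ℕ | (∀ i < j + 1, GoodRun p (cur f) (orb p (cur f) m i)) ∧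
        orb p (cur f) m (j + 1) = z} =
        ⋃ y : ℕ, ({f : ℕ × ℕ × ℕ → ℕ | (∀ i < j, GoodRun p (cur f) (orb p (cur f) m i)) ∧
          orb p (cur f) m j = y + 1} ∩
          {f | GoodRun p (cur f) (y + 1) ∧ nextZero p (cur f) (y + 1) = z}) := by
      ext f
      simp only [Set.mem_setOf_eq, Set.mem_iUnion, Set.mem_inter_iff]
      constructor
      · rintro ⟨h1, h2⟩
        have h0 := orb_pos hp hm f j
        refine ⟨orb p (cur f) m j - 1, ⟨fun i hi => h1 i (by omega), by omega⟩, ?_⟩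
        rw [Nat.sub_add_cancel h0]
        exact ⟨h1 j (by omega), h2⟩
      · rintro ⟨y, ⟨h1, h2⟩, h3, h4⟩
        refine ⟨fun i hi => ?_, ?_⟩
        · rcases Nat.lt_succ_iff_lt_or_eq.1 hi with h | h
          · exact h1 i h
          · rw [h, h2]; exact h3
        · have : orb p (cur f) m (j + 1) = nextZero p (cur f) (orb p (cur f) m j) := rfl
          rw [this, h2]; exact h4
    rw [this]
    exact MeasurableSet.iUnion fun y => (ih (y + 1)).inter
      (dep_measurable (dep_goodrun_eq hp (by omega) z))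

end OrbMeas

variable {Ω : Type} [MeasurableSpace Ω] {μ : Measure Ω} [IsProbabilityMeasure μ]
  {T : ℕ × ℕ × ℕ → Ω → ℕ}

/-- D7b: measurability. -/
theorem orb_meas {p : ℕ} (hp : p.Prime) (h : Res μ T) {P : ℕ → Set (ℕ × ℕ × ℕ → ℕ)}
    (hP : ∀ n, ∃ R, Dep (bx {n} R) (P n)) {m : ℕ} (hm : 2 ≤ m) (k : ℕ) :
    MeasurableSet {ω | (∀ j ≤ k + 1, GoodRun p (res T ω) (orb p (res T ω) m j)) ∧
      (fun i => T i ω) ∈ P (orb p (res T ω) m (k + 2))} := by
  have hA : MeasurableSet (⋃ z : ℕ, ({f : ℕ × ℕ × ℕ → ℕ |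
      (∀ i < k + 2, GoodRun p (cur f) (orb p (cur f) m i)) ∧ orb p (cur f) m (k + 2) = z} ∩ P z)) := by
    refine MeasurableSet.iUnion fun z => (OrbMeas.meas_B hp.one_lt.le hm (k + 2) z).inter ?_
    obtain ⟨R, hR⟩ := hP z
    exact dep_measurable hR
  have hT : Measurable (fun ω => (fun i => T i ω : ℕ × ℕ × ℕ → ℕ)) :=
    measurable_pi_lambda _ h.meas
  convert hT hA using 1
  ext ω
  simp only [Set.mem_setOf_eq, Set.mem_preimage, Set.mem_iUnion, Set.mem_inter_iff]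
  constructor
  · rintro ⟨h1, h2⟩
    exact ⟨_, ⟨fun i hi => h1 i (by omega), rfl⟩, h2⟩
  · rintro ⟨z, ⟨h1, h2⟩, h3⟩
    refine ⟨fun j hj => h1 j (by omega), ?_⟩
    have h2' : orb p (res T ω) m (k + 2) = z := h2
    rw [h2']; exact h3

end Pool.Agent.L5helper32.GP
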