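import Pool.Agent.L5helper68.DH.Lab

/-!
# J8: the disjoint union of two combinatorial manifolds is a combinatorial manifold

The statements of J1 (`plHomeo_image`) and J6 (`real_map`, `faces_rel`, `link_map`) are hypotheses.
-/

namespace Pool.Agent.L5helper68.DH

open Set

namespace J8

theorem faces_append (c d : Code) : faces (c ++ d) = faces c ∪ faces d := by
  ext s
  simp only [faces, List.mem_append, mem_union, mem_ofPred_eq]
  constructor
  · rintro ⟨hs, l, hl | hl, h⟩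
    · exact Or.inl ⟨hs, l, hl, h⟩
    · exact Or.inr ⟨hs, l, hl, h⟩
  · rintro (⟨hs, l, hl, h⟩ | ⟨hs, l, hl, h⟩)
    · exact ⟨hs, l, Or.inl hl, h⟩
    · exact ⟨hs, l, Or.inr hl, h⟩

theorem link_union (F G : Set (Finset ℕ)) (v : ℕ) (h : ∀ s ∈ G, v ∉ s) :
    link (F ∪ G) v = link F v := by
  ext s
  simp only [link, mem_union, mem_ofPred_eq]
  constructor
  · rintro ⟨hs, hv, h1 | h1⟩
    · exact ⟨hs, hv, h1⟩
    · exact absurd (Finset.mem_insert_self v s) (h _ h1)
  · rintro ⟨hs, hv, h1⟩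
    exact ⟨hs, hv, Or.inl h1⟩

theorem inj0 : Function.Injective (fun v : ℕ => 2 * v) := fun a b h => by
  simp only at h; omega

theorem inj1 : Function.Injective (fun v : ℕ => 2 * v + 1) := fun a b h => by
  simp only at h; omega

/-- One half: the vertices of the relabelled copy of `c`. -/
theorem half
    (plHomeo_image : ∀ {P Q : Set (ℕ → ℝ)} (E R : (ℕ → ℝ) →L[ℝ] (ℕ → ℝ))
      (_ : ∀ x ∈ P, R (E x) = x) (_ : PLHomeo P Q), PLHomeo (E '' P) Q)
    (real_map : ∀ (ι : ℕ → ℕ) (hι : Function.Injective ι) (F : Set (Finset ℕ)),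
      real (Finset.map ⟨ι, hι⟩ '' F) = relab ι hι '' real F)
    (link_map : ∀ (ι : ℕ → ℕ) (hι : Function.Injective ι) (F : Set (Finset ℕ)) (v : ℕ),
      link (Finset.map ⟨ι, hι⟩ '' F) (ι v) = Finset.map ⟨ι, hι⟩ '' link F v)
    (ι : ℕ → ℕ) (hι : Function.Injective ι) {F G : Set (Finset ℕ)} (hF : IsManifold F)
    (hG : ∀ s ∈ G, ∀ w, ι w ∉ s) (v : ℕ) (hv : {v} ∈ Finset.map ⟨ι, hι⟩ '' F) :
    IsSphere (real (link (Finset.map ⟨ι, hι⟩ '' F ∪ G) v)) ∨
      IsBall (real (link (Finset.map ⟨ι, hι⟩ '' F ∪ G) v)) := by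
  obtain ⟨s, hs, hsv⟩ := hv
  have hcard : s.card = 1 := by
    rw [← Finset.card_map ⟨ι, hι⟩, hsv, Finset.card_singleton]
  obtain ⟨w, rfl⟩ := Finset.card_eq_one.1 hcard
  rw [Finset.map_singleton, Finset.singleton_inj] at hsv
  have hvw : v = ι w := hsv.symm
  subst hvw
  rw [link_union _ _ _ (fun s hs => hG s hs w), link_map ι hι F w, real_map ι hι (link F w)]
  rcases hF w hs with h | h
  · exact Or.inl (plHomeo_image (relab ι hι) (unlab ι) (fun x _ => unlab_relab ι hι x) h)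
  · exact Or.inr (plHomeo_image (relab ι hι) (unlab ι) (fun x _ => unlab_relab ι hι x) h)

/-- J8 with the statements of J1 and J6 as hypotheses. -/
theorem isManifold_sum_of
    (plHomeo_image : ∀ {P Q : Set (ℕ → ℝ)} (E R : (ℕ → ℝ) →L[ℝ] (ℕ → ℝ))
      (_ : ∀ x ∈ P, R (E x) = x) (_ : PLHomeo P Q), PLHomeo (E '' P) Q)
    (real_map : ∀ (ι : ℕ → ℕ) (hι : Function.Injective ι) (F : Set (Finset ℕ)),
      real (Finset.map ⟨ι, hι⟩ '' F) = relab ι hι '' real F)
    (faces_rel : ∀ (ι : ℕ → ℕ) (hι : Function.Injective ι) (c : Code),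
      faces (rel ι c) = Finset.map ⟨ι, hι⟩ '' faces c)
    (link_map : ∀ (ι : ℕ → ℕ) (hι : Function.Injective ι) (F : Set (Finset ℕ)) (v : ℕ),
      link (Finset.map ⟨ι, hι⟩ '' F) (ι v) = Finset.map ⟨ι, hι⟩ '' link F v)
    {c d : Code} (hc : IsManifold (faces c)) (hd : IsManifold (faces d)) :
    IsManifold (faces (sum c d)) := by
  have hsum : faces (sum c d) = Finset.map ⟨fun v => 2 * v, inj0⟩ '' faces c ∪
      Finset.map ⟨fun v => 2 * v + 1, inj1⟩ '' faces d := by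
    unfold sum
    rw [faces_append, faces_rel _ inj0, faces_rel _ inj1]
  have h0 : ∀ s ∈ Finset.map ⟨fun v : ℕ => 2 * v + 1, inj1⟩ '' faces d, ∀ w : ℕ,
      (fun v : ℕ => 2 * v) w ∉ s := by
    rintro _ ⟨s, -, rfl⟩ w hw
    obtain ⟨u, -, hu⟩ := Finset.mem_map.1 hw
    simp only [Function.Embedding.coeFn_mk] at hu
    omega
  have h1 : ∀ s ∈ Finset.map ⟨fun v : ℕ => 2 * v, inj0⟩ '' faces c, ∀ w : ℕ,
      (fun v : ℕ => 2 * v + 1) w ∉ s := by
    rintro _ ⟨s, -, rfl⟩ w hw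
    obtain ⟨u, -, hu⟩ := Finset.mem_map.1 hw
    simp only [Function.Embedding.coeFn_mk] at hu
    omega
  intro v hv
  rw [hsum] at hv ⊢
  rcases hv with hv | hv
  · exact half plHomeo_image real_map link_map _ inj0 hc h0 v hv
  · rw [union_comm]
    exact half plHomeo_image real_map link_map _ inj1 hd h1 v hv

end J8

end Pool.Agent.L5helper68.DH
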