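import Pool.Agent.L5helper32.GP.Defs

/-! GP1 (helper37): deterministic facts on the jump, with digits -/

set_option autoImplicit false

open Finset MeasureTheory ProbabilityTheory

namespace Pool.Agent.L5helper32.GP

open Pool.Agent.L5helper32.GR (Root w pr sg Dep lev q)

theorem jump_pos (p : ℕ) (D : ℕ → ℕ → ℕ) (x : ℕ) : 1 ≤ jump p D x := by
  unfold jump
  refine Nat.one_le_iff_ne_zero.2 (Finset.prod_ne_zero_iff.2 fun r hr => ?_)
  exact (Nat.gcd_pos_of_pos_left _ (pow_pos (Nat.prime_of_mem_primeFactors hr).pos _)).ne'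

theorem jump_dvd (p : ℕ) (D : ℕ → ℕ → ℕ) {x : ℕ} (hx : x ≠ 0) : jump p D x ∣ x := by
  have h1 : ∏ r ∈ x.primeFactors, r ^ x.factorization r = x := by
    have h := Nat.prod_factorization_pow_eq_self hx
    rwa [Finsupp.prod, Nat.support_factorization] at h
  have h2 : jump p D x ∣ ∏ r ∈ x.primeFactors, r ^ x.factorization r := by
    unfold jump
    exact Finset.prod_dvd_prod_of_dvd _ _ fun r _ => Nat.gcd_dvd_left _ _
  rwa [h1] at h2

theorem jump_le (p : ℕ) (D : ℕ → ℕ → ℕ) {x : ℕ} (hx : x ≠ 0) : jump p D x ≤ x :=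
  Nat.le_of_dvd (Nat.pos_of_ne_zero hx) (jump_dvd p D hx)

theorem jump_zero (p : ℕ) (D : ℕ → ℕ → ℕ) : jump p D 0 = 1 := by
  simp [jump]

theorem jump_congr {p : ℕ} {D D' : ℕ → ℕ → ℕ} {x : ℕ} (h : ∀ r ≤ x, ∀ k < x, D r k = D' r k) :
    jump p D x = jump p D' x := by
  unfold jump
  refine Finset.prod_congr rfl fun r hr => ?_
  have hx : x ≠ 0 := (Nat.mem_primeFactors.1 hr).2.2
  have hrx : r ≤ x := Nat.le_of_mem_primeFactors hr
  have hv : x.factorization r < x := Nat.factorization_lt r hx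
  have htr : tr D r (x.factorization r) = tr D' r (x.factorization r) := by
    unfold tr
    refine Finset.sum_congr rfl fun i hi => ?_
    rw [h r hrx i ((Finset.mem_range.1 hi).trans hv)]
  rw [htr]

private lemma tr_modEq (D : ℕ → ℕ → ℕ) (r : ℕ) {v : ℕ} (hv : v ≠ 0) :
    tr D r v ≡ D r 0 [MOD r] := by
  obtain ⟨u, rfl⟩ := Nat.exists_eq_succ_of_ne_zero hv
  unfold tr
  rw [Nat.succ_eq_add_one, Finset.sum_range_succ', pow_zero, mul_one]
  have h1 : r ∣ ∑ i ∈ range u, D r (i + 1) * r ^ (i + 1) := by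
    refine Finset.dvd_sum fun i _ => ?_
    exact Dvd.dvd.mul_left (dvd_pow_self r (Nat.succ_ne_zero i)) _
  calc (∑ i ∈ range u, D r (i + 1) * r ^ (i + 1)) + D r 0 ≡ 0 + D r 0 [MOD r] :=
        Nat.ModEq.add_right _ ((Nat.modEq_zero_iff_dvd).2 h1)
    _ = D r 0 := zero_add _

private lemma dvd_iff_root {p r : ℕ} (D : ℕ → ℕ → ℕ) {v : ℕ} (hv : v ≠ 0) :
    r ∣ (tr D r v + 1) ^ p - 1 ↔ Root p r (D r 0) := by
  have h1 : (tr D r v + 1) ^ p ≡ (D r 0 + 1) ^ p [MOD r] :=
    ((tr_modEq D r hv).add_right 1).pow p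
  have h2 : 1 ≤ (tr D r v + 1) ^ p := Nat.one_le_pow _ _ (Nat.succ_pos _)
  unfold Root
  rw [← Nat.modEq_iff_dvd' h2]
  constructor
  · intro h
    exact h1.symm.trans h.symm
  · intro h
    exact (h1.trans h).symm

/-- If the jump is at least two, there is a prime which divides `x` and has a root as residue; more
precisely, every prime divisor of the jump is of this kind. -/
theorem root_of_dvd_jump {p : ℕ} {D : ℕ → ℕ → ℕ} {x r : ℕ} (hr : r.Prime) (h : r ∣ jump p D x)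
    (hx : x ≠ 0) : r ∣ x ∧ Root p r (D r 0) := by
  have hrx : r ∣ x := h.trans (jump_dvd p D hx)
  refine ⟨hrx, ?_⟩
  unfold jump at h
  obtain ⟨s, hs, hrs⟩ := (hr.prime.dvd_finsetProd_iff _).1 h
  have hsp : s.Prime := Nat.prime_of_mem_primeFactors hs
  have h1 : r ∣ s ^ x.factorization s := hrs.trans (Nat.gcd_dvd_left _ _)
  have h2 : r = s := (Nat.prime_dvd_prime_iff_eq hr hsp).1 (hr.dvd_of_dvd_pow h1)
  subst h2
  have hv : x.factorization r ≠ 0 := (hr.factorization_pos_of_dvd hx hrx).ne'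
  exact (dvd_iff_root D hv).1 (hrs.trans (Nat.gcd_dvd_right _ _))

theorem exists_root_of_jump {p : ℕ} {D : ℕ → ℕ → ℕ} {x : ℕ} (h : 2 ≤ jump p D x) :
    ∃ r, r.Prime ∧ r ∣ x ∧ Root p r (D r 0) := by
  have hx : x ≠ 0 := by
    rintro rfl
    rw [jump_zero] at h
    omega
  obtain ⟨r, hr, hrj⟩ := Nat.exists_prime_and_dvd (show jump p D x ≠ 1 by omega)
  exact ⟨r, hr, root_of_dvd_jump hr hrj hx⟩

theorem jump_ge {p : ℕ} {D : ℕ → ℕ → ℕ} {x r : ℕ} (hx : x ≠ 0) (hr : r.Prime) (h : r ∣ x)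
    (h' : Root p r (D r 0)) : r ≤ jump p D x := by
  have hv : x.factorization r ≠ 0 := (hr.factorization_pos_of_dvd hx h).ne'
  have h1 : r ∣ Nat.gcd (r ^ x.factorization r) ((tr D r (x.factorization r) + 1) ^ p - 1) :=
    Nat.dvd_gcd (dvd_pow_self r hv) ((dvd_iff_root D hv).2 h')
  have h2 : Nat.gcd (r ^ x.factorization r) ((tr D r (x.factorization r) + 1) ^ p - 1) ∣
      jump p D x := by
    unfold jump
    exact Finset.dvd_prod_of_mem
      (fun r => Nat.gcd (r ^ x.factorization r) ((tr D r (x.factorization r) + 1) ^ p - 1))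
      (Nat.mem_primeFactors.2 ⟨hr, h, hx⟩)
  exact Nat.le_of_dvd (jump_pos p D x) (h1.trans h2)

theorem jump_eq_one_iff {p : ℕ} {D : ℕ → ℕ → ℕ} {x : ℕ} :
    jump p D x = 1 ↔ ∀ r, r.Prime → r ∣ x → x ≠ 0 → ¬ Root p r (D r 0) := by
  constructor
  · intro h r hr hrx hx hroot
    have h1 := jump_ge hx hr hrx hroot
    have h2 := hr.two_le
    omega
  · intro h
    by_contra hne
    have h1 := jump_pos p D x
    have hx : x ≠ 0 := by
      rintro rfl
      exact hne (jump_zero p D)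
    obtain ⟨r, hr, hrx, hroot⟩ := exists_root_of_jump (show 2 ≤ jump p D x by omega)
    exact h r hr hrx hx hroot

end Pool.Agent.L5helper32.GP
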