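import Pool.Agent.L5helper32.GR.Defs2
import Pool.Agent.L5helper32.GR.Next

set_option autoImplicit false

open Finset MeasureTheory ProbabilityTheory

namespace Pool.Agent.L5helper32.GR

private lemma jump_congr' {p : ℕ} {T T' : ℕ → ℕ} {x : ℕ} (h : ∀ r ≤ x, T r = T' r) :
    jump p T x = jump p T' x := by
  unfold jump
  refine Finset.prod_congr (Finset.filter_congr fun r hr => ?_) fun _ _ => rfl
  rw [h r (Nat.le_of_mem_primeFactors hr)]

theorem fin_congr_win (p : ℕ) {T T' : ℕ → ℕ → ℕ} {x c X : ℕ}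
    (h : ∀ c', X ≤ c' → c' ≤ c → ∀ r ≤ x, T c' r = T' c' r) (hX : X ≤ fin p T x c) :
    fin p T' x c = fin p T x c := by
  induction x using Nat.strong_induction_on generalizing c with
  | _ x ih =>
    rcases Nat.eq_zero_or_pos x with rfl | hx
    · rw [fin_zero, fin_zero]
    · have hXc : X ≤ c := hX.trans (fin_le p T x c)
      have hj : jump p (T c) x = jump p (T' c) x := jump_congr' (h c hXc le_rfl)
      have hj1 : 1 ≤ jump p (T c) x := jump_pos p (T c) x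
      rw [fin_step p T' hx.ne' c, ← hj, fin_step p T hx.ne' c]
      rw [fin_step p T hx.ne' c] at hX
      refine ih (x - jump p (T c) x) (by omega) (fun c' h1 h2 r hr => ?_) hX
      exact h c' h1 (by omega) r (by omega)

private lemma dep_gen (p x c M X : ℕ) (hx : x ≤ M) (Q : ℕ → Prop) :
    Dep (Icc X c ×ˢ range (M + 1)) {f : ℕ × ℕ → ℕ |
      X ≤ fin p (cur f) x c ∧ Sv p M (cur f) (fin p (cur f) x c) ∧ Q (fin p (cur f) x c)} := by
  have key : ∀ f g : ℕ × ℕ → ℕ, (∀ i ∈ Icc X c ×ˢ range (M + 1), f i = g i) →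
      (X ≤ fin p (cur f) x c ∧ Sv p M (cur f) (fin p (cur f) x c) ∧ Q (fin p (cur f) x c)) →
      (X ≤ fin p (cur g) x c ∧ Sv p M (cur g) (fin p (cur g) x c) ∧ Q (fin p (cur g) x c)) := by
    intro f g hfg hf
    obtain ⟨h1, h2, h3⟩ := hf
    have hag : ∀ c', X ≤ c' → c' ≤ c → ∀ r ≤ M, cur f c' r = cur g c' r := by
      intro c' hc1 hc2 r hr
      exact hfg (c', r) (Finset.mem_product.2 ⟨Finset.mem_Icc.2 ⟨hc1, hc2⟩,
        Finset.mem_range.2 (by show r < M + 1; omega)⟩)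
    have heq : fin p (cur g) x c = fin p (cur f) x c :=
      fin_congr_win p (fun c' hc1 hc2 r hr => hag c' hc1 hc2 r (hr.trans hx)) h1
    rw [heq]
    refine ⟨h1, fun r hr hrM => ?_, h3⟩
    rw [← hag _ h1 (fin_le _ _ _ _) r hrM]
    exact h2 r hr hrM
  intro f g hfg
  exact ⟨key f g hfg, key g f fun i hi => (hfg i hi).symm⟩

/-- The badness depends only on the levels from `X` to `c`. -/
theorem dep_bad_win (p x c M X : ℕ) (hx : x ≤ M) :
    Dep (Icc X c ×ˢ range (M + 1)) {f : ℕ × ℕ → ℕ |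
      ¬ (X ≤ fin p (cur f) x c ∧ Sv p M (cur f) (fin p (cur f) x c))} := by
  intro f g hfg
  have h := dep_gen p x c M X hx (fun _ => True) f g hfg
  simp only [Set.mem_ofPred_eq, and_true] at h
  exact not_congr h

private lemma le_lev (p z : ℕ) : (z + 1) ^ p - 1 ≤ lev p z + 2 := by
  unfold lev
  omega

theorem dep_goodrun_eq {p : ℕ} (hp : 1 ≤ p) {z : ℕ} (hz : 1 ≤ z) (n : ℕ) :
    Dep (Icc ((lev p z + 3) / 4) (lev p z) ×ˢ range (lev p z + 3)) {f : ℕ × ℕ → ℕ |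
      GoodRun p (cur f) z ∧ nextZero p (cur f) z = n} := by
  intro f g hfg
  have h := dep_gen p ((z + 1) ^ p - 1) (lev p z) (lev p z + 2) ((lev p z + 3) / 4)
    (le_lev p z) (fun m => m = n) f g hfg
  simp only [Set.mem_ofPred_eq, ← nextZero_eq hp _ hz] at h
  have e : ∀ f : ℕ × ℕ → ℕ, (GoodRun p (cur f) z ∧ nextZero p (cur f) z = n) ↔
      ((lev p z + 3) / 4 ≤ nextZero p (cur f) z ∧
        Sv p (lev p z + 2) (cur f) (nextZero p (cur f) z) ∧ nextZero p (cur f) z = n) := by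
    intro f
    unfold GoodRun
    have : lev p z ≤ 4 * nextZero p (cur f) z ↔ (lev p z + 3) / 4 ≤ nextZero p (cur f) z := by
      omega
    rw [this, and_assoc]
  show (GoodRun p (cur f) z ∧ nextZero p (cur f) z = n) ↔
    (GoodRun p (cur g) z ∧ nextZero p (cur g) z = n)
  rw [e f, e g]
  exact h

theorem dep_goodrun {p : ℕ} (hp : 1 ≤ p) {z : ℕ} (hz : 1 ≤ z) :
    Dep (Icc ((lev p z + 3) / 4) (lev p z) ×ˢ range (lev p z + 3)) {f : ℕ × ℕ → ℕ |
      GoodRun p (cur f) z} := by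
  intro f g hfg
  have h1 := dep_goodrun_eq hp hz (nextZero p (cur f) z) f g hfg
  have h2 := dep_goodrun_eq hp hz (nextZero p (cur g) z) f g hfg
  exact ⟨fun h => (h1.1 ⟨h, rfl⟩).1, fun h => (h2.2 ⟨h, rfl⟩).1⟩

theorem dep_winrun_eq {p : ℕ} (hp : 1 ≤ p) {z : ℕ} (hz : 1 ≤ z) (n : ℕ) :
    Dep (Icc (lev p (z - 1) + 1) (lev p z) ×ˢ range (lev p z + 3)) {f : ℕ × ℕ → ℕ |
      WinRun p (cur f) z ∧ nextZero p (cur f) z = n} := by
  intro f g hfg
  have h := dep_gen p ((z + 1) ^ p - 1) (lev p z) (lev p z + 2) (lev p (z - 1) + 1)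
    (le_lev p z) (fun m => m = n) f g hfg
  simp only [Set.mem_ofPred_eq, ← nextZero_eq hp _ hz] at h
  have e : ∀ f : ℕ × ℕ → ℕ, (WinRun p (cur f) z ∧ nextZero p (cur f) z = n) ↔
      (lev p (z - 1) + 1 ≤ nextZero p (cur f) z ∧
        Sv p (lev p z + 2) (cur f) (nextZero p (cur f) z) ∧ nextZero p (cur f) z = n) := by
    intro f
    unfold WinRun
    rw [Nat.lt_iff_add_one_le, and_assoc]
  show (WinRun p (cur f) z ∧ nextZero p (cur f) z = n) ↔
    (WinRun p (cur g) z ∧ nextZero p (cur g) z = n)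
  rw [e f, e g]
  exact h

theorem dep_winrun {p : ℕ} (hp : 1 ≤ p) {z : ℕ} (hz : 1 ≤ z) :
    Dep (Icc (lev p (z - 1) + 1) (lev p z) ×ˢ range (lev p z + 3)) {f : ℕ × ℕ → ℕ |
      WinRun p (cur f) z} := by
  intro f g hfg
  have h1 := dep_winrun_eq hp hz (nextZero p (cur f) z) f g hfg
  have h2 := dep_winrun_eq hp hz (nextZero p (cur g) z) f g hfg
  exact ⟨fun h => (h1.1 ⟨h, rfl⟩).1, fun h => (h2.2 ⟨h, rfl⟩).1⟩

end Pool.Agent.L5helper32.GR
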