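import Pool.Agent.L5helper66.TD.Defs

/-! TD1: the Dehn invariant is symmetric; the pattern of the edges of a tetrahedron with a symmetry
of order at least 3 -/

set_option autoImplicit false

open scoped TensorProduct RealInnerProductSpace

namespace Pool.Agent.L5helper37.TD

open Pool.Agent.L5helper66.TD

lemma orth_neg (u v : E3) : orth (-u) (v - u) = orth u v := by
  unfold orth
  by_cases hu : u = 0
  · subst hu
    simp
  · have h : (⟪u, u⟫ : ℝ) ≠ 0 := fun h => hu (inner_self_eq_zero.1 h)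
    have e : (⟪-u, v - u⟫ : ℝ) / ⟪-u, -u⟫ = -(⟪u, v⟫ / ⟪u, u⟫) + 1 := by
      rw [inner_neg_left, inner_neg_neg, inner_sub_right]
      field_simp
      ring
    rw [e, smul_neg, add_smul, neg_smul, one_smul]
    abel

lemma term_swap1 (P Q R S : E3) : term Q P R S = term P Q R S := by
  have h : dihedral Q P R S = dihedral P Q R S := by
    unfold dihedral
    have e1 : P - Q = -(Q - P) := by abel
    have e2 : ∀ R : E3, R - Q = (R - P) - (Q - P) := fun R => by abel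
    rw [e2 R, e2 S, e1, orth_neg, orth_neg]
  unfold term
  rw [h, dist_comm]

lemma term_swap2 (P Q R S : E3) : term P Q S R = term P Q R S := by
  unfold term dihedral
  rw [InnerProductGeometry.angle_comm]

theorem dehn_perm (T : Fin 4 → E3) (τ : Equiv.Perm (Fin 4)) : dehn (T ∘ τ) = dehn T := by
  revert T
  have hτ : τ ∈ Submonoid.closure
      (Set.range fun i : Fin 3 => Equiv.swap i.castSucc i.succ) := by
    rw [Equiv.Perm.mclosure_swap_castSucc_succ]
    exact Submonoid.mem_top τ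
  induction hτ using Submonoid.closure_induction with
  | mem x hx =>
    obtain ⟨i, rfl⟩ := hx
    intro T
    fin_cases i
    · have h0 : Equiv.swap (Fin.castSucc (0 : Fin 3)) (Fin.succ (0 : Fin 3)) = Equiv.swap 0 1 := rfl
      show dehn (T ∘ Equiv.swap (Fin.castSucc (0 : Fin 3)) (Fin.succ (0 : Fin 3))) = dehn T
      rw [h0]
      unfold dehn
      simp only [Function.comp]
      rw [show (Equiv.swap (0 : Fin 4) 1) 0 = 1 by decide, show (Equiv.swap (0 : Fin 4) 1) 1 = 0 by decide,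
        show (Equiv.swap (0 : Fin 4) 1) 2 = 2 by decide, show (Equiv.swap (0 : Fin 4) 1) 3 = 3 by decide]
      rw [term_swap1 (T 0) (T 1), term_swap2 (T 2) (T 3) (T 0) (T 1)]
      abel
    · have h0 : Equiv.swap (Fin.castSucc (1 : Fin 3)) (Fin.succ (1 : Fin 3)) = Equiv.swap 1 2 := rfl
      show dehn (T ∘ Equiv.swap (Fin.castSucc (1 : Fin 3)) (Fin.succ (1 : Fin 3))) = dehn T
      rw [h0]
      unfold dehn
      simp only [Function.comp]
      rw [show (Equiv.swap (1 : Fin 4) 2) 0 = 0 by decide, show (Equiv.swap (1 : Fin 4) 2) 1 = 2 by decide,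
        show (Equiv.swap (1 : Fin 4) 2) 2 = 1 by decide, show (Equiv.swap (1 : Fin 4) 2) 3 = 3 by decide]
      rw [term_swap1 (T 1) (T 2), term_swap2 (T 0) (T 3) (T 1) (T 2)]
      abel
    · have h0 : Equiv.swap (Fin.castSucc (2 : Fin 3)) (Fin.succ (2 : Fin 3)) = Equiv.swap 2 3 := rfl
      show dehn (T ∘ Equiv.swap (Fin.castSucc (2 : Fin 3)) (Fin.succ (2 : Fin 3))) = dehn T
      rw [h0]
      unfold dehn
      simp only [Function.comp]
      rw [show (Equiv.swap (2 : Fin 4) 3) 0 = 0 by decide, show (Equiv.swap (2 : Fin 4) 3) 1 = 1 by decide,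
        show (Equiv.swap (2 : Fin 4) 3) 2 = 3 by decide, show (Equiv.swap (2 : Fin 4) 3) 3 = 2 by decide]
      rw [term_swap1 (T 2) (T 3), term_swap2 (T 0) (T 1) (T 2) (T 3)]
      abel
  | one => intro T; rfl
  | mul x y _ _ hx hy =>
    intro T
    have : T ∘ ((x * y : Equiv.Perm (Fin 4))) = (T ∘ x) ∘ y := rfl
    rw [this, hy, hx]

set_option maxRecDepth 20000 in
lemma perm_pattern : ∀ σ : Equiv.Perm (Fin 4), σ * σ ≠ 1 → ∃ τ : Equiv.Perm (Fin 4),
    (σ (τ 0) = τ 1 ∧ σ (τ 1) = τ 2 ∧ σ (τ 2) = τ 0 ∧ σ (τ 3) = τ 3) ∨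
    (σ (τ 0) = τ 2 ∧ σ (τ 2) = τ 1 ∧ σ (τ 1) = τ 3 ∧ σ (τ 3) = τ 0) := by
  decide

theorem exists_pattern (T : Fin 4 → E3) (σ : Equiv.Perm (Fin 4)) (hσ : σ * σ ≠ 1)
    (h : ∀ i j, dist (T (σ i)) (T (σ j)) = dist (T i) (T j)) :
    ∃ (τ : Equiv.Perm (Fin 4)) (a b : ℝ), IsPyramid (T ∘ τ) a b ∨ IsDisphenoid (T ∘ τ) a b := by
  obtain ⟨τ, ⟨h0, h1, h2, h3⟩ | ⟨h0, h2, h1, h3⟩⟩ := perm_pattern σ hσ
  · refine ⟨τ, dist (T (τ 0)) (T (τ 1)), dist (T (τ 0)) (T (τ 3)), Or.inl ?_⟩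
    have e1 := h (τ 0) (τ 1)
    have e2 := h (τ 1) (τ 2)
    have e3 := h (τ 0) (τ 3)
    have e4 := h (τ 1) (τ 3)
    rw [h0, h1] at e1
    rw [h1, h2] at e2
    rw [h0, h3] at e3
    rw [h1, h3] at e4
    unfold IsPyramid
    simp only [Function.comp]
    refine ⟨trivial, e1, ?_, trivial, e3, ?_⟩
    · rw [dist_comm, e2, e1]
    · rw [e4, e3]
  · refine ⟨τ, dist (T (τ 0)) (T (τ 1)), dist (T (τ 0)) (T (τ 2)), Or.inr ?_⟩
    -- σ: τ0 → τ2 → τ1 → τ3 → τ0
    have e1 := h (τ 0) (τ 1)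
    rw [h0, h1] at e1
    have e2 := h (τ 0) (τ 2)
    rw [h0, h2] at e2
    have e3 := h (τ 2) (τ 1)
    rw [h2, h1] at e3
    have e4 := h (τ 1) (τ 3)
    rw [h1, h3] at e4
    unfold IsDisphenoid
    simp only [Function.comp]
    refine ⟨trivial, e1, trivial, ?_, ?_, ?_⟩
    · rw [dist_comm, e4, e3, e2]
    · rw [dist_comm, e2]
    · rw [e3, e2]

end Pool.Agent.L5helper37.TD
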