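import Pool.Agent.L5helper31.TG.Defs

/-!
# The example `exL n` is not the fan of a projective space
-/

set_option autoImplicit false

open Finset

namespace Pool.Agent.L5helper31.TG

theorem card_exL (n : ℕ) : (exL n).card = n + 3 := by
  have hc : (-∑ i : Fin n, Pi.single i.succ 1 : Fin (n + 1) → ℤ) 0 = 0 := by
    simp
  have hc' : ∀ k : Fin n, (-∑ i : Fin n, Pi.single i.succ 1 : Fin (n + 1) → ℤ) k.succ = -1 := by
    intro k
    rw [Pi.neg_apply, Finset.sum_apply]
    simp [Pi.single_apply, Fin.succ_inj]
  unfold exL
  rw [card_union_of_disjoint, card_image_of_injective, card_univ, Fintype.card_fin]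
  · rw [card_eq_three.2 ⟨_, _, _, ?_, ?_, ?_, rfl⟩]
    · omega
    · intro h
      have := congrFun h 0
      simp at this
    · intro h
      have := congrFun h 0
      rw [hc] at this
      simp at this
    · intro h
      have := congrFun h 0
      rw [hc] at this
      simp at this
  · intro i k h
    have := congrFun h i.succ
    by_contra hik
    simp [Fin.succ_inj, hik] at this
  · rw [disjoint_left]
    intro a ha hb
    obtain ⟨k, -, rfl⟩ := mem_image.1 hb
    simp only [mem_insert, mem_singleton] at ha
    rcases ha with h | h | h
    · have := congrFun h 0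
      simp at this
    · have := congrFun h 0
      simp at this
    · have := congrFun h k.succ
      rw [hc'] at this
      simp at this

/-- The example is not the fan of a projective space. -/
theorem ex_not (n : ℕ) : ¬ ∃ M : Fin (n + 1) → (Fin (n + 1) → ℤ), |(Matrix.of M).det| = 1 ∧
    exL n = insert (-∑ i, M i) (univ.image M) := by
  rintro ⟨M, -, h⟩
  have h1 := card_exL n
  rw [h] at h1
  have h2 : (insert (-∑ i, M i) (univ.image M)).card ≤ (univ.image M).card + 1 :=
    card_insert_le _ _
  have h3 : (univ.image M).card ≤ n + 1 := card_image_le.trans (by simp)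
  omega

end Pool.Agent.L5helper31.TG
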